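import Mathlib

/-!
# A Borel vertically rigid function with non-translation isometries
-/

open Filter Topology Set MeasureTheory

namespace Pool.Agent.Results.MP_f4f8d7_an.BorelGlide

noncomputable section

/-! ### Signed distance to the nearest integer -/

def sf (x : ℝ) : ℝ := x - round x

lemma sf_add_int (x : ℝ) (n : ℤ) : sf (x + n) = sf x := by
  unfold sf; rw [round_add_intCast]; push_cast; ring

lemma sf_eq_self {x : ℝ} (h : |x| < 1 / 2) : sf x = x := by
  have := abs_lt.1 h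
  have h0 : round x = 0 := round_eq_zero_iff.2 ⟨by linarith, by linarith⟩
  unfold sf; rw [h0]; simp

lemma sf_add {u v : ℝ} (hu : |sf u| < 1 / 4) (hv : |sf v| < 1 / 4) : sf (u + v) = sf u + sf v := by
  have e : u + v = (sf u + sf v) + ((round u + round v : ℤ) : ℝ) := by
    unfold sf; push_cast; ring
  rw [e, sf_add_int, sf_eq_self]
  have := abs_add_le (sf u) (sf v)
  linarith

lemma sf_neg {u : ℝ} (hu : |sf u| < 1 / 2) : sf (-u) = -sf u := by
  have e : -u = (-sf u) + ((-round u : ℤ) : ℝ) := by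
    unfold sf; push_cast; ring
  rw [e, sf_add_int, sf_eq_self]
  rwa [abs_neg]

lemma sf_measurable : Measurable sf := by
  have : sf = fun x => x - ((⌊x + 1 / 2⌋ : ℤ) : ℝ) := by
    funext x; unfold sf; rw [round_eq]
  rw [this]
  exact measurable_id.sub (measurable_from_top.comp (Int.measurable_floor.comp (measurable_id.add_const _)))

/-! ### The subgroup `H` and the homomorphism `lam` -/

def a (k : ℕ) (x : ℝ) : ℝ := 2 ^ k * sf (2 ^ (k ^ 2) * x)

def H : Set ℝ := {x | ∃ l : ℝ, Tendsto (fun k => a k x) atTop (𝓝 l)}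

open Classical in
def lam (x : ℝ) : ℝ := if h : x ∈ H then Classical.choose h else 0

lemma lam_spec {x : ℝ} (h : x ∈ H) : Tendsto (fun k => a k x) atTop (𝓝 (lam x)) := by
  unfold lam; rw [dif_pos h]; exact Classical.choose_spec h

lemma lam_eq {x l : ℝ} (h : Tendsto (fun k => a k x) atTop (𝓝 l)) : x ∈ H ∧ lam x = l :=
  ⟨⟨l, h⟩, tendsto_nhds_unique (lam_spec ⟨l, h⟩) h⟩

lemma sf_tendsto {x : ℝ} (h : x ∈ H) : Tendsto (fun k : ℕ => sf (2 ^ (k ^ 2) * x)) atTop (𝓝 0) := by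
  have h1 := lam_spec h
  have h2 : Tendsto (fun k : ℕ => ((1 : ℝ) / 2) ^ k) atTop (𝓝 0) :=
    tendsto_pow_atTop_nhds_zero_of_lt_one (by norm_num) (by norm_num)
  have h3 := h2.mul h1
  rw [zero_mul] at h3
  refine h3.congr fun k => ?_
  unfold a
  rw [← mul_assoc, ← mul_pow]; norm_num

lemma sf_small {x : ℝ} (h : x ∈ H) {ε : ℝ} (hε : 0 < ε) :
    ∀ᶠ k : ℕ in atTop, |sf (2 ^ (k ^ 2) * x)| < ε := by
  have := (sf_tendsto h).abs
  rw [abs_zero] at this
  exact this.eventually_lt_const hε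

lemma add_mem {x y : ℝ} (hx : x ∈ H) (hy : y ∈ H) : x + y ∈ H ∧ lam (x + y) = lam x + lam y := by
  apply lam_eq
  refine ((lam_spec hx).add (lam_spec hy)).congr' ?_
  filter_upwards [sf_small hx (by norm_num : (0 : ℝ) < 1 / 4), sf_small hy (by norm_num : (0 : ℝ) < 1 / 4)]
    with k h1 h2
  unfold a
  rw [mul_add (2 ^ (k ^ 2) : ℝ), sf_add h1 h2, mul_add]

lemma neg_mem {x : ℝ} (hx : x ∈ H) : -x ∈ H ∧ lam (-x) = -lam x := by
  apply lam_eq
  refine (lam_spec hx).neg.congr' ?_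
  filter_upwards [sf_small hx (by norm_num : (0 : ℝ) < 1 / 2)] with k h1
  unfold a
  rw [mul_neg (2 ^ (k ^ 2) : ℝ), sf_neg h1, mul_neg]

lemma zero_mem : (0 : ℝ) ∈ H ∧ lam 0 = 0 := by
  apply lam_eq
  refine tendsto_const_nhds.congr fun k => ?_
  unfold a sf; simp

lemma sub_mem {x y : ℝ} (hx : x ∈ H) (hy : y ∈ H) : x - y ∈ H := by
  rw [sub_eq_add_neg]; exact (add_mem hx (neg_mem hy).1).1

/-! ### Lacunary series -/

def ser (b : ℕ → ℤ) : ℝ := ∑' j : ℕ, (b j : ℝ) / 2 ^ (j ^ 2)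

lemma ser_summable {b : ℕ → ℤ} {C : ℝ} (hb : ∀ j, |(b j : ℝ)| ≤ C * 4 ^ j) :
    Summable fun j : ℕ => (b j : ℝ) / 2 ^ (j ^ 2) := by
  have hC : 0 ≤ C := by
    have := hb 0
    rw [pow_zero, mul_one] at this
    exact (abs_nonneg _).trans this
  apply Summable.of_norm_bounded (g := fun j : ℕ => (8 * C) * (1 / 2) ^ j)
    (summable_geometric_two.mul_left _)
  intro j
  rw [Real.norm_eq_abs, abs_div, abs_of_pos (by positivity : (0 : ℝ) < 2 ^ (j ^ 2)),
    div_le_iff₀ (by positivity)]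
  have h1 : (4 : ℝ) ^ j * 2 ^ j ≤ 8 * 2 ^ (j ^ 2) := by
    have e1 : (4 : ℝ) ^ j * 2 ^ j = 2 ^ (3 * j) := by
      rw [← mul_pow, pow_mul]; norm_num
    have e2 : (8 : ℝ) * 2 ^ (j ^ 2) = 2 ^ (j ^ 2 + 3) := by rw [pow_add]; norm_num; ring
    rw [e1, e2]
    apply pow_le_pow_right₀ (by norm_num)
    nlinarith [sq_nonneg ((j : ℤ) - 2), Nat.zero_le j, (by
      rcases Nat.lt_or_ge j 3 with h | h
      · interval_cases j <;> norm_num
      · nlinarith : 3 * j ≤ j ^ 2 + 3)]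
  have h2 : (1 / 2 : ℝ) ^ j * 2 ^ j = 1 := by rw [← mul_pow]; norm_num
  have h3 : (0 : ℝ) < 2 ^ j := by positivity
  calc |(b j : ℝ)| ≤ C * 4 ^ j := hb j
    _ = C * (4 ^ j * 2 ^ j) * (1 / 2) ^ j := by
        rw [← mul_assoc, mul_assoc, mul_comm ((2 : ℝ) ^ j), h2, mul_one]
    _ ≤ C * (8 * 2 ^ (j ^ 2)) * (1 / 2) ^ j := by gcongr
    _ = 8 * C * (1 / 2) ^ j * 2 ^ (j ^ 2) := by ring

lemma split {b : ℕ → ℤ} {C : ℝ} (hb : ∀ j, |(b j : ℝ)| ≤ C * 4 ^ j) (k : ℕ) :
    ∃ (N : ℤ) (r : ℝ), |r| ≤ 2 * C / 4 ^ k ∧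
      2 ^ (k ^ 2) * ser b = N + (b (k + 1) : ℝ) / 2 ^ (2 * k + 1) + r := by
  have hC : 0 ≤ C := by
    have := hb 0
    rw [pow_zero, mul_one] at this
    exact (abs_nonneg _).trans this
  have hs := ser_summable hb
  have h0 := hs.sum_add_tsum_nat_add (k + 2)
  refine ⟨∑ j ∈ Finset.range (k + 1), b j * 2 ^ (k ^ 2 - j ^ 2),
    2 ^ (k ^ 2) * ∑' i : ℕ, (b (i + (k + 2)) : ℝ) / 2 ^ ((i + (k + 2)) ^ 2), ?_, ?_⟩
  · rw [← tsum_mul_left]
    have hg : HasSum (fun i : ℕ => C / 4 ^ k * (1 / 2) ^ i) (C / 4 ^ k * 2) :=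
      hasSum_geometric_two.mul_left _
    have := tsum_of_norm_bounded (f := fun i : ℕ => (2 : ℝ) ^ (k ^ 2) *
      ((b (i + (k + 2)) : ℝ) / 2 ^ ((i + (k + 2)) ^ 2))) hg (by
      intro i
      rw [Real.norm_eq_abs, abs_mul, abs_div, abs_of_pos (by positivity : (0 : ℝ) < 2 ^ (k ^ 2)),
        abs_of_pos (by positivity : (0 : ℝ) < 2 ^ ((i + (k + 2)) ^ 2))]
      have h1 := hb (i + (k + 2))
      have h2 : (2 : ℝ) ^ (k ^ 2) * 4 ^ (i + (k + 2)) * (4 ^ k * 2 ^ i) ≤ 2 ^ ((i + (k + 2)) ^ 2) := by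
        have e1 : (2 : ℝ) ^ (k ^ 2) * 4 ^ (i + (k + 2)) * (4 ^ k * 2 ^ i) =
            2 ^ (k ^ 2 + 2 * (i + (k + 2)) + (2 * k + i)) := by
          rw [show (4 : ℝ) = 2 ^ 2 by norm_num, ← pow_mul, ← pow_mul, ← pow_add, ← pow_add, ← pow_add]
        rw [e1]
        apply pow_le_pow_right₀ (by norm_num)
        nlinarith [Nat.zero_le (i * k), Nat.zero_le (i ^ 2)]
      rw [← mul_div_assoc, div_le_iff₀ (by positivity)]
      calc (2 : ℝ) ^ (k ^ 2) * |(b (i + (k + 2)) : ℝ)| ≤ 2 ^ (k ^ 2) * (C * 4 ^ (i + (k + 2))) := by gcongr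
        _ = C / 4 ^ k * (1 / 2) ^ i * (2 ^ (k ^ 2) * 4 ^ (i + (k + 2)) * (4 ^ k * 2 ^ i)) := by
          rw [one_div, inv_pow]; field_simp
        _ ≤ C / 4 ^ k * (1 / 2) ^ i * 2 ^ ((i + (k + 2)) ^ 2) := by gcongr)
    rw [Real.norm_eq_abs] at this
    refine this.trans (le_of_eq ?_)
    ring
  · unfold ser
    rw [← h0, mul_add, Finset.sum_range_succ, mul_add, Finset.mul_sum]
    congr 1
    congr 1
    · push_cast
      apply Finset.sum_congr rfl
      intro j hj
      have hjk : j ^ 2 ≤ k ^ 2 := Nat.pow_le_pow_left (Nat.lt_succ_iff.1 (Finset.mem_range.1 hj)) 2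
      obtain ⟨d, hd⟩ := Nat.exists_eq_add_of_le hjk
      rw [hd, Nat.add_sub_cancel_left, pow_add]
      field_simp
    · have e : (k + 1) ^ 2 = k ^ 2 + (2 * k + 1) := by ring
      rw [e, pow_add]
      field_simp

lemma floor_tendsto (y : ℝ) {m : ℕ → ℕ} (hm : Tendsto m atTop atTop) :
    Tendsto (fun k => ((⌊y * 2 ^ (m k)⌋ : ℤ) : ℝ) / 2 ^ (m k)) atTop (𝓝 y) := by
  have h2 : Tendsto (fun k => ((1 : ℝ) / 2) ^ (m k)) atTop (𝓝 0) :=
    (tendsto_pow_atTop_nhds_zero_of_lt_one (by norm_num) (by norm_num)).comp hm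
  have h3 : Tendsto (fun k => y - ((1 : ℝ) / 2) ^ (m k)) atTop (𝓝 (y - 0)) := h2.const_sub y
  rw [sub_zero] at h3
  refine tendsto_of_tendsto_of_tendsto_of_le_of_le h3 tendsto_const_nhds ?_ ?_
  · intro k
    dsimp only
    have h4 := Int.sub_one_lt_floor (y * 2 ^ (m k))
    rw [le_div_iff₀ (by positivity), sub_mul, ← mul_pow]
    norm_num
    linarith
  · intro k
    dsimp only
    rw [div_le_iff₀ (by positivity)]
    exact Int.floor_le _

/-- `lam : H → ℝ` is onto. -/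
lemma lam_surj (y : ℝ) : ∃ x, x ∈ H ∧ lam x = y := by
  set b : ℕ → ℤ := fun j => ⌊y * 2 ^ j⌋ with hb
  have hbound : ∀ j, |(b j : ℝ)| ≤ (|y| + 1) * 4 ^ j := by
    intro j
    have h1 := Int.sub_one_lt_floor (y * 2 ^ j)
    have h2 := Int.floor_le (y * 2 ^ j)
    have h3 : |y * 2 ^ j| = |y| * 2 ^ j := by rw [abs_mul, abs_of_pos (by positivity : (0:ℝ) < 2 ^ j)]
    have h4 := abs_le.1 (le_of_eq h3)
    have h5 : (2 : ℝ) ^ j ≤ 4 ^ j := by gcongr; norm_num
    have h6 : (1 : ℝ) ≤ 4 ^ j := one_le_pow₀ (by norm_num)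
    have h7 : |y| * 2 ^ j ≤ |y| * 4 ^ j := by gcongr
    rw [abs_le]
    constructor <;> nlinarith
  refine ⟨ser b, lam_eq ?_⟩
  choose N r hr hsplit using fun k => split hbound k
  have hpow : Tendsto (fun k : ℕ => ((1 : ℝ) / 2) ^ k) atTop (𝓝 0) :=
    tendsto_pow_atTop_nhds_zero_of_lt_one (by norm_num) (by norm_num)
  have hfl := floor_tendsto y (tendsto_add_atTop_nat 1)
  have hr2 : Tendsto (fun k => 2 ^ k * r k) atTop (𝓝 0) := by
    apply squeeze_zero_norm (a := fun k => 2 * (|y| + 1) * (1 / 2) ^ k)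
    · intro k
      rw [Real.norm_eq_abs, abs_mul, abs_of_pos (by positivity : (0:ℝ) < 2 ^ k)]
      calc 2 ^ k * |r k| ≤ 2 ^ k * (2 * (|y| + 1) / 4 ^ k) := by gcongr; exact hr k
        _ = 2 * (|y| + 1) * (1 / 2) ^ k := by
          rw [show (4 : ℝ) = 2 * 2 by norm_num, mul_pow, one_div, inv_pow]; field_simp
    · simpa using hpow.const_mul (2 * (|y| + 1))
  have hlim : Tendsto (fun k => ((b (k + 1) : ℝ)) / 2 ^ (k + 1) + 2 ^ k * r k) atTop (𝓝 (y + 0)) :=
    hfl.add hr2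
  rw [add_zero] at hlim
  -- the small quantity
  have hsm : Tendsto (fun k : ℕ => ((1 : ℝ) / 2) ^ k * ((b (k + 1) : ℝ) / 2 ^ (k + 1) + 2 ^ k * r k))
      atTop (𝓝 0) := by
    have := hpow.mul hlim
    rwa [zero_mul] at this
  have hsm2 := hsm.abs
  rw [abs_zero] at hsm2
  refine hlim.congr' ?_
  filter_upwards [hsm2.eventually_lt_const (by norm_num : (0 : ℝ) < 1 / 2)] with k hk
  have e1 : ((1 : ℝ) / 2) ^ k * ((b (k + 1) : ℝ) / 2 ^ (k + 1) + 2 ^ k * r k) =
      (b (k + 1) : ℝ) / 2 ^ (2 * k + 1) + r k := by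
    have h2k : (2 : ℝ) ^ k ≠ 0 := by positivity
    rw [one_div, inv_pow, pow_succ, show 2 * k + 1 = k + k + 1 by ring, pow_succ, pow_add]
    field_simp
  rw [e1] at hk
  have e2 : 2 ^ (k ^ 2) * ser b = ((b (k + 1) : ℝ) / 2 ^ (2 * k + 1) + r k) + (N k : ℝ) := by
    rw [hsplit k]; ring
  unfold a
  rw [e2, sf_add_int, sf_eq_self hk, ← e1, ← mul_assoc, ← mul_pow]
  norm_num

/-! ### The element `σ` -/

def sig : ℝ := ser (fun j => ⌊√2 * 2 ^ (2 * j - 1)⌋)

lemma sig_bound : ∀ j : ℕ, |((⌊√2 * 2 ^ (2 * j - 1)⌋ : ℤ) : ℝ)| ≤ 2 * 4 ^ j := by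
  intro j
  have hs0 : 0 ≤ √2 := Real.sqrt_nonneg 2
  have hs2 : √2 ≤ 2 := by
    rw [Real.sqrt_le_left (by norm_num)]; norm_num
  have h1 : (0 : ℤ) ≤ ⌊√2 * 2 ^ (2 * j - 1)⌋ := Int.floor_nonneg.2 (by positivity)
  have h2 := Int.floor_le (√2 * 2 ^ (2 * j - 1))
  rw [abs_of_nonneg (by exact_mod_cast h1)]
  have h3 : (2 : ℝ) ^ (2 * j - 1) ≤ 4 ^ j := by
    rw [show (4 : ℝ) = 2 ^ 2 by norm_num, ← pow_mul]
    exact pow_le_pow_right₀ (by norm_num) (by omega)
  have h4 : √2 * 2 ^ (2 * j - 1) ≤ 2 * 4 ^ j := by gcongr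
  linarith

lemma sig_not_mem {n : ℤ} (hn : n ≠ 0) : (n : ℝ) * sig ∉ H := by
  intro hmem
  have h1 := sf_tendsto hmem
  choose N r hr hsplit using fun k => split sig_bound k
  have hm : Tendsto (fun k : ℕ => 2 * k + 1) atTop atTop :=
    tendsto_atTop_mono (fun k => (by show k ≤ 2 * k + 1; omega)) tendsto_id
  have h2 := floor_tendsto (√2) hm
  have hr0 : Tendsto r atTop (𝓝 0) := by
    apply squeeze_zero_norm (a := fun k => 2 * 2 * (1 / 4) ^ k)
    · intro k
      rw [Real.norm_eq_abs]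
      refine (hr k).trans (le_of_eq ?_)
      rw [one_div, inv_pow]; field_simp
    · have := (tendsto_pow_atTop_nhds_zero_of_lt_one (by norm_num : (0 : ℝ) ≤ 1 / 4)
        (by norm_num)).const_mul (2 * 2)
      simpa using this
  have h3 := ((h2.add hr0).const_mul (n : ℝ)).sub h1
  rw [add_zero, sub_zero] at h3
  -- these are integers
  have hint : ∀ k, (n : ℝ) * (((⌊√2 * 2 ^ (2 * k + 1)⌋ : ℤ) : ℝ) / 2 ^ (2 * k + 1) + r k) -
      sf (2 ^ (k ^ 2) * (n * sig)) ∈ Set.range ((↑) : ℤ → ℝ) := by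
    intro k
    refine ⟨round (2 ^ (k ^ 2) * ((n : ℝ) * sig)) - n * N k, ?_⟩
    have h4 := hsplit k
    have e0 : 2 * (k + 1) - 1 = 2 * k + 1 := by omega
    rw [e0] at h4
    have h5 : 2 ^ (k ^ 2) * sig = (N k : ℝ) + ((⌊√2 * 2 ^ (2 * k + 1)⌋ : ℤ) : ℝ) / 2 ^ (2 * k + 1) + r k := h4
    unfold sf
    push_cast
    have h6 : 2 ^ (k ^ 2) * ((n : ℝ) * sig) = n * (2 ^ (k ^ 2) * sig) := by ring
    rw [sub_sub_eq_add_sub]
    have h7 : (2 : ℝ) ^ (k ^ 2) * ((n : ℝ) * sig) = n * ((N k : ℝ) + ((⌊√2 * 2 ^ (2 * k + 1)⌋ : ℤ) : ℝ) / 2 ^ (2 * k + 1) + r k) := by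
      rw [h6, h5]
    linear_combination h7
  have hcl : IsClosed (Set.range ((↑) : ℤ → ℝ)) := Int.isClosedEmbedding_coe_real.isClosed_range
  have hmem2 := hcl.mem_of_tendsto h3 (Eventually.of_forall hint)
  obtain ⟨m, hm⟩ := hmem2
  have hirr := irrational_sqrt_two
  have : Irrational ((n : ℝ) * √2) := hirr.intCast_mul hn
  exact this ⟨(m : ℚ), by rw [← hm]; push_cast; rfl⟩

/-! ### The function -/

open Classical in
/-- `f(h + nσ) = (-1)^n exp(lam h)` for `h ∈ H`, `n ∈ ℤ`, and `0` off `H ⊕ ℤσ`. -/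
def f (x : ℝ) : ℝ :=
  if h : ∃ n : ℤ, x - n * sig ∈ H then
    (-1) ^ (Classical.choose h) * Real.exp (lam (x - (Classical.choose h) * sig))
  else 0

lemma n_unique {x : ℝ} {n m : ℤ} (hn : x - n * sig ∈ H) (hm : x - m * sig ∈ H) : n = m := by
  by_contra hne
  have h1 := sub_mem hn hm
  have e : x - n * sig - (x - m * sig) = ((m - n : ℤ) : ℝ) * sig := by push_cast; ring
  rw [e] at h1
  exact sig_not_mem (sub_ne_zero.2 (Ne.symm hne)) h1

lemma f_val {x : ℝ} {n : ℤ} (hn : x - n * sig ∈ H) :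
    f x = (-1) ^ n * Real.exp (lam (x - n * sig)) := by
  have h : ∃ n : ℤ, x - n * sig ∈ H := ⟨n, hn⟩
  unfold f
  rw [dif_pos h, n_unique (Classical.choose_spec h) hn]

lemma f_zero {x : ℝ} (h : ∀ n : ℤ, x - n * sig ∉ H) : f x = 0 := by
  unfold f
  rw [dif_neg (by push Not; exact h)]

lemma f_add_H {g : ℝ} (hg : g ∈ H) (x : ℝ) : f (x + g) = Real.exp (lam g) * f x := by
  by_cases h : ∃ n : ℤ, x - n * sig ∈ H
  · obtain ⟨n, hn⟩ := h
    have e : x + g - n * sig = (x - n * sig) + g := by ring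
    have h1 := add_mem hn hg
    rw [f_val (n := n) (by rw [e]; exact h1.1), f_val hn, e, h1.2, Real.exp_add]
    ring
  · push Not at h
    rw [f_zero h, f_zero, mul_zero]
    intro n hn
    apply h n
    have := sub_mem hn hg
    have e : x + g - n * sig - g = x - n * sig := by ring
    rwa [e] at this

lemma f_add_sig (x : ℝ) : f (x + sig) = -f x := by
  by_cases h : ∃ n : ℤ, x - n * sig ∈ H
  · obtain ⟨n, hn⟩ := h
    have e : x + sig - ((n + 1 : ℤ) : ℝ) * sig = x - n * sig := by push_cast; ring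
    rw [f_val (n := n + 1) (by rw [e]; exact hn), f_val hn, e, zpow_add₀ (by norm_num)]
    simp
  · push Not at h
    rw [f_zero h, f_zero, neg_zero]
    intro n hn
    apply h (n - 1)
    have e : x - ((n - 1 : ℤ) : ℝ) * sig = x + sig - n * sig := by push_cast; ring
    rwa [e]

/-! ### Measurability -/

lemma a_measurable (k : ℕ) : Measurable (a k) :=
  measurable_const.mul (sf_measurable.comp (measurable_const.mul measurable_id))

lemma H_measurable : MeasurableSet H := MeasureTheory.measurableSet_exists_tendsto fun k => a_measurable k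

lemma lam_measurable : Measurable lam := by
  apply measurable_of_tendsto_metrizable (f := fun k => H.indicator (a k))
  · exact fun k => (a_measurable k).indicator H_measurable
  · rw [tendsto_pi_nhds]
    intro x
    by_cases hx : x ∈ H
    · simp only [indicator_of_mem hx]
      exact lam_spec hx
    · simp only [indicator_of_notMem hx]
      have : lam x = 0 := by unfold lam; rw [dif_neg hx]
      rw [this]
      exact tendsto_const_nhds

def gn (n : ℤ) : ℝ → ℝ := {x : ℝ | x - n * sig ∈ H}.indicator fun x => (-1) ^ n * Real.exp (lam (x - n * sig))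

lemma gn_measurable (n : ℤ) : Measurable (gn n) := by
  apply Measurable.indicator
  · exact measurable_const.mul (Real.measurable_exp.comp (lam_measurable.comp (measurable_id.sub_const _)))
  · exact H_measurable.preimage (measurable_id.sub_const _)

lemma f_measurable : Measurable f := by
  apply measurable_of_tendsto_metrizable (f := fun (N : ℕ) x => ∑ n ∈ Finset.Icc (-(N : ℤ)) N, gn n x)
  · intro N
    exact Finset.measurable_fun_sum _ fun n _ => gn_measurable n
  · rw [tendsto_pi_nhds]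
    intro x
    by_cases h : ∃ n : ℤ, x - n * sig ∈ H
    · obtain ⟨n, hn⟩ := h
      apply tendsto_const_nhds.congr'
      filter_upwards [eventually_ge_atTop n.natAbs] with N hN
      rw [Finset.sum_eq_single n]
      · rw [f_val hn, gn, indicator_of_mem (show x ∈ {x : ℝ | x - n * sig ∈ H} from hn)]
      · intro m _ hmn
        rw [gn, indicator_of_notMem]
        intro hm
        exact hmn (n_unique hm hn)
      · intro hnot
        exfalso
        apply hnot
        rw [Finset.mem_Icc]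
        omega
    · push Not at h
      rw [f_zero h]
      apply tendsto_const_nhds.congr
      intro N
      symm
      apply Finset.sum_eq_zero
      intro n _
      rw [gn, indicator_of_notMem]
      exact h n

/-! ### The plane -/

/-- the Euclidean plane -/
abbrev Plane := EuclideanSpace ℝ (Fin 2)

/-- the graph of `g : ℝ → ℝ` -/
def graph (g : ℝ → ℝ) : Set Plane := {p | p 1 = g (p 0)}

/-- `f` is vertically rigid: `graph (c f)` is isometric to `graph f` for every `c > 0`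
(by an isometry of the plane). -/
def VerticallyRigid (f : ℝ → ℝ) : Prop :=
  ∀ c : ℝ, 0 < c → ∃ φ : Plane ≃ᵢ Plane, φ '' graph (fun x => c * f x) = graph f

/-- a translation of the plane -/
def IsTranslation (φ : Plane ≃ᵢ Plane) : Prop := ∃ v : Plane, ∀ p, φ p = p + v

/-- `(x, y) ↦ (x + s, ε y)` with `ε = ± 1` -/
def iso (s ε : ℝ) (hε : ε * ε = 1) : Plane ≃ᵢ Plane where
  toFun p := !₂[p 0 + s, ε * p 1]
  invFun p := !₂[p 0 - s, ε * p 1]
  left_inv p := by
    ext i
    fin_cases i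
    · simp
    · simp [← mul_assoc, hε]
  right_inv p := by
    ext i
    fin_cases i
    · simp
    · simp [← mul_assoc, hε]
  isometry_toFun := by
    apply Isometry.of_dist_eq
    intro p q
    rw [EuclideanSpace.dist_eq, EuclideanSpace.dist_eq]
    congr 1
    rw [Fin.sum_univ_two, Fin.sum_univ_two]
    congr 1
    · simp [Real.dist_eq]
    · simp only [Real.dist_eq, sq_abs]
      simp
      calc (ε * p.ofLp 1 - ε * q.ofLp 1) ^ 2 = (ε * ε) * (p.ofLp 1 - q.ofLp 1) ^ 2 := by ring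
        _ = _ := by rw [hε, one_mul]

lemma iso_apply_zero (s ε : ℝ) (hε : ε * ε = 1) (p : Plane) : (iso s ε hε p) 0 = p 0 + s := by
  simp [iso]

lemma iso_apply_one (s ε : ℝ) (hε : ε * ε = 1) (p : Plane) : (iso s ε hε p) 1 = ε * p 1 := by
  simp [iso]

lemma iso_graph (s ε : ℝ) (hε : ε * ε = 1) (c : ℝ) (h : ∀ x, f (x + s) = ε * (c * f x)) :
    iso s ε hε '' graph (fun x => c * f x) = graph f := by
  ext q
  constructor
  · rintro ⟨p, hp, rfl⟩
    change (iso s ε hε p) 1 = f ((iso s ε hε p) 0)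
    have hp' : p 1 = c * f (p 0) := hp
    rw [iso_apply_one, iso_apply_zero, h, hp']
  · intro hq
    have hq' : q 1 = f (q 0) := hq
    refine ⟨(iso s ε hε).symm q, ?_, (iso s ε hε).apply_symm_apply q⟩
    set p := (iso s ε hε).symm q with hp
    have hpq : iso s ε hε p = q := (iso s ε hε).apply_symm_apply q
    have h0 := iso_apply_zero s ε hε p
    have h1 := iso_apply_one s ε hε p
    rw [hpq] at h0 h1
    change p 1 = c * f (p 0)
    rw [h1, h0, h] at hq'
    have : ε * (ε * p 1) = ε * (ε * (c * f (p 0))) := by rw [hq']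
    rwa [← mul_assoc, ← mul_assoc, hε, one_mul, one_mul] at this

lemma sf_sig_ne : ∀ g ∈ H, g + sig ≠ 0 := by
  intro g hg h
  have h1 : sig = -g := by linarith
  have h2 := (neg_mem hg).1
  rw [← h1] at h2
  apply sig_not_mem (n := 1) one_ne_zero
  simpa using h2

/-- **Answer to Q1, Q2(a) and Q2(b): no.** There is a Borel measurable function `f : ℝ → ℝ`, not of
the form `a + b x`, that is vertically rigid, and such that for EVERY `c > 0` there is an isometry
`φ` of the plane with `φ(graph (c f)) = graph f` which is not a translation and not an involution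
(hence neither a translation nor a reflection; it is a glide reflection). -/
theorem result : ∃ f : ℝ → ℝ, Measurable f ∧ VerticallyRigid f ∧
    (¬ ∃ a b : ℝ, ∀ x, f x = a + b * x) ∧
    ∀ c : ℝ, 0 < c → ∃ φ : Plane ≃ᵢ Plane, φ '' graph (fun x => c * f x) = graph f ∧
      ¬ IsTranslation φ ∧ ¬ Function.Involutive φ := by
  refine ⟨f, f_measurable, ?_, ?_, ?_⟩
  · intro c hc
    obtain ⟨g, hg, hlam⟩ := lam_surj (Real.log c)
    refine ⟨iso g 1 (by norm_num), iso_graph _ _ _ _ fun x => ?_⟩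
    rw [f_add_H hg, hlam, Real.exp_log hc, one_mul]
  · rintro ⟨a, b, hab⟩
    have h0 : f 0 = 1 := by
      rw [f_val (n := 0) (by simpa using zero_mem.1)]
      simp [zero_mem.2]
    have h1 : f sig = -1 := by
      have := f_add_sig 0
      rw [zero_add, h0] at this
      exact this
    have h2 : f (sig + sig) = 1 := by rw [f_add_sig, h1]; norm_num
    rw [hab] at h0 h1 h2
    linarith
  · intro c hc
    obtain ⟨g, hg, hlam⟩ := lam_surj (Real.log c)
    refine ⟨iso (g + sig) (-1) (by norm_num), iso_graph _ _ _ _ fun x => ?_, ?_, ?_⟩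
    · rw [← add_assoc, f_add_sig, f_add_H hg, hlam, Real.exp_log hc]; ring
    · rintro ⟨v, hv⟩
      have h1 := congrArg (fun p : Plane => p 1) (hv 0)
      have h2 := congrArg (fun p : Plane => p 1) (hv !₂[0, 1])
      simp only [iso_apply_one] at h1 h2
      simp at h1 h2
      rw [← h1] at h2
      norm_num at h2
    · intro hinv
      have h1 := congrArg (fun p : Plane => p 0) (hinv 0)
      simp only [iso_apply_zero] at h1
      simp at h1
      have h2 := sf_sig_ne g hg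
      apply h2
      linarith

end

end Pool.Agent.Results.MP_f4f8d7_an.BorelGlide
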